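import Pool.Agent.Q57.TM.Pred
import Pool.Agent.Q57.HM.Fin

/-!
# The index of the Tate classes over the motivated classes
-/

open CategoryTheory AlgebraicGeometry

universe u w

namespace Pool.Agent.Q57.TM

open Module
open Pool.Agent.H914 Pool.Agent.H914.VarClass Pool.Agent.H914.VarClass.Obj
  Pool.Agent.H914.WeilCohomology
open Pool.Agent.Q57.DS
open Pool.Agent.Q55 (GaloisAction IsTate tatePred Virtually motPred)
open Pool.Agent.Y133.Half
open Pool.Agent.Y121

variable {k : Type u} [Field k] {𝒱 : VarClass k} {ops : CycleOps 𝒱}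

section Gen

variable {W W' : WeilCohomology.{u, 0} ops} (C : Compare W W') {X Y Z : 𝒱.Obj}
  (hrat : ∀ r : W.K, ∃ q : ℚ, (q : W.K) = r) {Γ : Type w} [Group Γ] (G : GaloisAction W' Γ)

include hrat in
/-- **Motivated classes are Tate classes.** -/
lemma mot_tate {j : ℕ} {c : W.H Y} (h : Pool.Agent.Q55.Motivated W Y j c) :
    IsTate G Y j (C.f Y c) := by
  induction h with
  | @cl X j z hz =>
    rw [(C.cmp X).cl j z hz]
    exact (tatePred G).cl hz
  | lambda hD hHL hc => exact lam_tate C hrat G hD hHL hc.1 hc.2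
  | add _ _ ha hb =>
    rw [map_add]
    exact (tatePred G).add ha hb
  | smul r _ ha =>
    obtain ⟨q, rfl⟩ := hrat r
    rw [f_smul]
    exact (tatePred G).smul _ ha
  | mul _ _ ha hb =>
    rw [map_mul]
    exact (tatePred G).mul ha hb
  | pull f _ ha =>
    rw [f_map]
    exact (tatePred G).map f ha
  | push f hl _ ha =>
    rw [f_push C hrat]
    exact (tatePred G).push f hl ha

lemma ext_tate {j : ℕ} {c : W'.H Y} (h : (extPred C hrat (motPred W)).P Y j c) :
    (tatePred G).P Y j c := by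
  have h1 : c ∈ im C {x | (motPred W).P Y j x} := h
  induction h1 using Submodule.span_induction with
  | mem x hx =>
    obtain ⟨a, ha, rfl⟩ := hx
    exact mot_tate C hrat G ha
  | zero => exact (tatePred G).zero
  | add x y hx' hy' hx hy => exact (tatePred G).add (hx hx') (hy hy')
  | smul r x hx' hx => exact (tatePred G).smul _ (hx hx')

include C hrat in
lemma finrank_eq' (X : 𝒱.Obj) : finrank W'.K (W'.H X) = finrank W.K (W.H X) := by
  obtain ⟨e', -⟩ := exists_basis C hrat (Module.finBasis W.K (W.H X))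
  rw [finrank_eq_card_basis e', Fintype.card_fin]

include C hrat in
lemma nontrivial' (X : 𝒱.Obj) [Nontrivial (W.H X)] : Nontrivial (W'.H X) := by
  have h1 : 0 < finrank W'.K (W'.H X) := by
    rw [finrank_eq' C hrat]
    exact Module.finrank_pos
  exact Module.nontrivial_of_finrank_pos h1

lemma index_unique {t s : ℕ → ℕ} {N M : ℕ∞} (h1 : HasIndex t s N) (h2 : HasIndex t s M) :
    N = M := by
  have h3 := tendsto_nhds_unique h1 h2
  exact_mod_cast h3

end Gen

variable (T : AHS.HodgeTheory ops) (X : 𝒱.Obj) [Nontrivial (T.W.H X)]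

theorem t_tower {M : ℕ∞} (hM : HasIndex (fun n => dimBy T.W (Pool.Agent.Q55.Motivated T.W) (pw X n))
      (fun n => cycRank ops (pw X n)) M) {W' : WeilCohomology.{u, 0} ops} (C : Compare T.W W')
    {Γ : Type w} [Group Γ] (G : GaloisAction W' Γ) :
    ∃ N : ℕ∞, 1 ≤ N ∧
      HasIndex (fun n => dimBy W' (IsTate G) (pw X n))
        (fun n => dimBy T.W (Pool.Agent.Q55.Motivated T.W) (pw X n)) N ∧
      HasIndex (fun n => dimBy W' (IsTate G) (pw X n)) (fun n => cycRank ops (pw X n)) (N * M) ∧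
      (N = 1 ↔ ∀ n j c, IsTate G (pw X n) j c →
        Img C (Pool.Agent.Q55.Motivated T.W) (pw X n) j c) ∧
      (N ≠ ⊤ → GeneratedOver W' (Img C (Pool.Agent.Q55.Motivated T.W)) (IsTate G) X N) := by
  have hX' : Nontrivial (W'.H X) := nontrivial' C T.rat X
  obtain ⟨N, M', h1, h2, h3, h4, h5, h6, h7, -, -, h8, -⟩ :=
    (extPred C T.rat (motPred T.W)).tower (tatePred G) (fun {_ _ _} h => ext_tate C T.rat G h) X
      (fun n => ext_nondeg C T.rat (motPred T.W) (pw X n)
        (Pool.Agent.Q57.DR.mot_nondeg (T := AHS.toH T) (pw X n)))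
  have hdim : ∀ n, dimBy W' (extPred C T.rat (motPred T.W)).P (pw X n) =
      dimBy T.W (Pool.Agent.Q55.Motivated T.W) (pw X n) := fun n => by
    rw [ClassPred.dimBy_eq]
    exact ext_finrank C T.rat (motPred T.W) (pw X n)
  simp only [hdim] at h3 h4
  obtain rfl : M' = M := index_unique h4 hM
  exact ⟨N, h1, h3, h5, h6, h8⟩

theorem t_half {W' : WeilCohomology.{u, 0} ops} (C : Compare T.W W')
    {Γ : Type w} [Group Γ] (G : GaloisAction W' Γ) {N m : ℕ} (hN : 8 ≤ N) (hN2 : N % 2 = 0)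
    (hm : m < N) {j : ℕ} {c : W'.H (pw X m)} (hc : IsTate G (pw X m) j c)
    (hc' : ¬ Img C (Pool.Agent.Q55.Motivated T.W) (pw X m) j c) {ε : ℝ} (hε : 0 < ε) {n : ℕ}
    (hn : (2 * (finrank T.W.K (T.W.H X) : ℝ)) ^ (3 * N) / ε ^ 2 ≤ n + 1) :
    (dimBy T.W (Pool.Agent.Q55.Motivated T.W) (pw X n) : ℝ) ≤
      (1 / 2 + ε) * dimBy W' (IsTate G) (pw X n) := by
  have hX' : Nontrivial (W'.H X) := nontrivial' C T.rat X
  have hXH : Nontrivial ((AHS.toH T).W.H X) := inferInstanceAs (Nontrivial (T.W.H X))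
  set S := (extPred C T.rat (motPred T.W)).sys with hS
  set R := (tatePred G).sys with hR
  have hSR : ∀ Z, S.C Z ≤ R.C Z := fun Z =>
    ClassPred.sys_le (Q := extPred C T.rat (motPred T.W)) (R := tatePred G)
      (fun {_ _ _} h => ext_tate C T.rat G h) Z
  have hne : ¬ R.C (pw X m) ≤ S.C (pw X m) := by
    intro h
    apply hc'
    exact ClassPred.of_sp (Q := extPred C T.rat (motPred T.W))
      (h (ClassPred.sp_of (Q := tatePred G) hc)) hc.1
  obtain ⟨l, hl, hl1⟩ := Pool.Agent.Q60.HD.exists_tr_sys (T := AHS.toH T) (X := X)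
    (motPred T.W).sys (fun Z z hz => Pool.Agent.Q50.MO.cl_mem_mot T.W Z z hz)
  have hl' : C.f X l ∈ S.C X := by
    rw [hS, ext_sp]
    exact f_mem C hl
  have hl1' : W'.tr X (C.f X l) = 1 := by
    have h1 : T.W.tr X l = ((1 : ℚ) : T.W.K) := by rw [Rat.cast_one]; exact hl1
    rw [f_tr C h1, Rat.cast_one]
  have hb : 0 < finrank W'.K (W'.H X) := Module.finrank_pos
  have hpos : ∀ n, 0 < S.al X n := by
    intro n
    obtain ⟨m, hm, hm1⟩ := S.exists_lam hl' hl1' n
    refine S.a_pos (Sys.xp_mem_C S hm hm) ?_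
    rw [tr_xp, hm1, mul_one]
  have hbot : ∀ m, S.C (pw X m) ≠ ⊥ := by
    intro m hm
    obtain ⟨y, hy, hy1⟩ := S.exists_lam hl' hl1' m
    rw [hm, Submodule.mem_bot] at hy
    exact ne_zero_of_tr hy1 hy
  rw [← finrank_eq' C T.rat] at hn
  have key := Pool.Agent.Q60.HD.uniform_half hSR hb hpos hbot hN hN2 (fun m' hm' => by
    refine lt_of_le_of_ne (hSR _) fun heq => hne ?_
    exact Pool.Agent.Q57.DR.le_pw (by omega) heq.ge) hε hn
  have h1 : S.a (pw X n) = finrank W'.K (S.C (pw X n)) := by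
    rw [← Sys.nondeg_iff]
    exact ext_nondeg C T.rat (motPred T.W) (pw X n)
      (Pool.Agent.Q57.DR.mot_nondeg (T := AHS.toH T) (pw X n))
  have h2 : finrank W'.K (S.C (pw X n)) = dimBy T.W (Pool.Agent.Q55.Motivated T.W) (pw X n) :=
    ext_finrank C T.rat (motPred T.W) (pw X n)
  rw [h1, h2] at key
  exact key

end Pool.Agent.Q57.TM
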