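import Pool.Agent.Q57.DS.Defs

/-!
# Comparison isomorphisms: definitions

In the intended use `W` is the cohomology of the complex manifolds with rational coefficients, `W'` is
`l`-adic cohomology, and the comparison isomorphism is the one of Artin.
-/

open CategoryTheory AlgebraicGeometry

universe u

namespace Pool.Agent.Q57.TM

section Alg

variable {K L A A' B B' Z : Type*} [Field K] [Field L] [Ring A] [Ring A'] [Ring B] [Ring B']
  [Algebra K A] [Algebra K A'] [Algebra L B] [Algebra L B'] [AddCommGroup Z]

/-- The ring homomorphism `f : A → B` induces an isomorphism between `A` with scalars extended from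
`K` to `L` and `B` (families which are linearly independent over `K` are mapped to families which
are linearly independent over `L`, and the image of `f` spans `B` over `L`); it preserves the
degrees, and it respects the rational values of the orientations `t`, `t'` and the classes of the
cycles. -/
structure IsCmp (f : A →+* B) (gr : ℕ → Submodule K A) (gr' : ℕ → Submodule L B) (t : A →ₗ[K] K)
    (t' : B →ₗ[L] L) (cl : Z →+ A) (cl' : Z →+ B) (cyc : ℕ → Z → Prop) : Prop where
  indep : ∀ (ι : Type) (c : ι → A), LinearIndependent K c → LinearIndependent L fun i => f (c i)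
  span : Submodule.span L (Set.range f) = ⊤
  gr : ∀ i, ∀ c ∈ gr i, f c ∈ gr' i
  tr : ∀ (a : A) (q : ℚ), t a = (q : K) → t' (f a) = (q : L)
  cl : ∀ j z, cyc j z → f (cl z) = cl' z

/-- The ring homomorphisms `f` and `f'` commute with the homomorphisms `m` and `m'`. -/
def Comm (f : A →+* B) (f' : A' →+* B') (m : A' →ₐ[K] A) (m' : B' →ₐ[L] B) : Prop :=
  ∀ c, f (m c) = m' (f' c)

end Alg

open Pool.Agent.H914 Pool.Agent.H914.VarClass Pool.Agent.H914.VarClass.Obj
  Pool.Agent.H914.WeilCohomology
open Pool.Agent.Q57.DS (Cls InSpan)

variable {k : Type u} [Field k] {𝒱 : VarClass k} {ops : CycleOps 𝒱}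

/-- A comparison isomorphism: ring homomorphisms `H(X) → H'(X)` which become isomorphisms if the
scalars of `H(X)` are extended, commute with pull-backs, and respect the degrees, the orientations
and the classes of cycles. -/
structure Compare (W W' : WeilCohomology.{u, 0} ops) where
  /-- the homomorphisms -/
  f : ∀ X : 𝒱.Obj, W.H X →+* W'.H X
  cmp : ∀ X, IsCmp (f X) (W.gr X) (W'.gr X) (W.tr X) (W'.tr X) (W.cl X) (W'.cl X) X.IsCyc
  nat : ∀ (X Y : 𝒱.Obj) (g : X ⟶ Y), Comm (f X) (f Y) (W.map g) (W'.map g)

variable {W W' : WeilCohomology.{u, 0} ops}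

/-- The linear combinations of the images of the classes with the property `P`. -/
def Img (C : Compare W W') (P : Cls W) : Cls W' :=
  fun X j c => InSpan W'.K (C.f X '' {x | P X j x}) c

end Pool.Agent.Q57.TM
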