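import Pool.Agent.Q57.TM.Defs
import Pool.Agent.H914R2.WeilBasic
import Pool.Agent.Y133.Half.PairPred

/-!
# Extension of scalars by comparison isomorphisms
-/

open CategoryTheory AlgebraicGeometry

universe u w

namespace Pool.Agent.Q57.TM

open Module
open Pool.Agent.H914 Pool.Agent.H914.VarClass Pool.Agent.H914.VarClass.Obj
  Pool.Agent.H914.WeilCohomology
open Pool.Agent.Q57.DS (Cls)

variable {k : Type u} [Field k] {𝒱 : VarClass k} {ops : CycleOps 𝒱}
  {W W' : WeilCohomology.{u, 0} ops} (C : Compare W W') {X Y Z : 𝒱.Obj}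

lemma nsmul_cast' {K V : Type*} [Field K] [CharZero K] [AddCommGroup V] [Module K V] (q : ℚ)
    (x : V) : q.den • ((q : K) • x) = q.num • x := by
  rw [← Nat.cast_smul_eq_nsmul K, ← Int.cast_smul_eq_zsmul K, smul_smul]
  congr 1
  have h : (q.den : K) ≠ 0 := Nat.cast_ne_zero.2 q.den_nz
  rw [Rat.cast_def, mul_div_cancel₀ _ h]

/-- The comparison maps are compatible with rational scalars. -/
lemma f_smul (q : ℚ) (x : W.H X) : C.f X ((q : W.K) • x) = (q : W'.K) • C.f X x := by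
  have h1 := congrArg (C.f X) (nsmul_cast' (K := W.K) q x)
  rw [map_nsmul, map_zsmul] at h1
  have h2 := nsmul_cast' (K := W'.K) q (C.f X x)
  have h3 := h1.trans h2.symm
  rw [← Nat.cast_smul_eq_nsmul W'.K, ← Nat.cast_smul_eq_nsmul W'.K] at h3
  exact smul_right_injective _ (Nat.cast_ne_zero.2 q.den_nz : (q.den : W'.K) ≠ 0) h3

lemma f_gr {i : ℕ} {c : W.H X} (hc : c ∈ W.gr X i) : C.f X c ∈ W'.gr X i := (C.cmp X).gr i c hc

lemma f_map (g : X ⟶ Y) (c : W.H Y) : C.f X (W.map g c) = W'.map g (C.f Y c) := C.nat X Y g c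

/-- Induction on the classes in the larger cohomology. -/
lemma f_ind {p : W'.H X → Prop} (h0 : p 0) (hadd : ∀ x y, p x → p y → p (x + y))
    (h : ∀ (r : W'.K) (a : W.H X), p (r • C.f X a)) (x : W'.H X) : p x := by
  have h1 : x ∈ Submodule.span W'.K (Set.range (C.f X)) := by rw [(C.cmp X).span]; trivial
  refine Submodule.span_induction (p := fun x _ => ∀ r : W'.K, p (r • x)) ?_ ?_ ?_ ?_ h1 1 |>
    fun h => by rwa [one_smul] at h
  · rintro _ ⟨a, rfl⟩ r
    exact h r a
  · intro r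
    rw [smul_zero]
    exact h0
  · intro x y _ _ hx hy r
    rw [smul_add]
    exact hadd _ _ (hx r) (hy r)
  · intro s x _ hx r
    rw [smul_smul]
    exact hx _

variable (hrat : ∀ r : W.K, ∃ q : ℚ, (q : W.K) = r)

include hrat in
/-- The basis given by the comparison isomorphism. -/
lemma exists_basis {ι : Type} [Fintype ι] (e : Basis ι W.K (W.H X)) :
    ∃ e' : Basis ι W'.K (W'.H X), ∀ i, e' i = C.f X (e i) := by
  have h1 := (C.cmp X).indep ι e e.linearIndependent
  have h2 : ⊤ ≤ Submodule.span W'.K (Set.range fun i => C.f X (e i)) := by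
    rw [← (C.cmp X).span, Submodule.span_le]
    rintro _ ⟨x, rfl⟩
    rw [← e.sum_repr x, map_sum]
    refine Submodule.sum_mem _ fun i _ => ?_
    obtain ⟨q, hq⟩ := hrat (e.repr x i)
    rw [← hq, f_smul]
    exact Submodule.smul_mem _ _ (Submodule.subset_span ⟨i, rfl⟩)
  exact ⟨Basis.mk h1 h2, fun i => Basis.mk_apply _ _ i⟩

include hrat in
/-- The extension of a linear map. -/
lemma exists_ext (φ : W.H X →ₗ[W.K] W.H Y) :
    ∃ φ' : W'.H X →ₗ[W'.K] W'.H Y, ∀ v, φ' (C.f X v) = C.f Y (φ v) := by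
  obtain ⟨e', he'⟩ := exists_basis C hrat (Module.finBasis W.K (W.H X))
  refine ⟨e'.constr W'.K fun i => C.f Y (φ (Module.finBasis W.K (W.H X) i)), fun v => ?_⟩
  have h1 : ∀ i, ∃ q : ℚ, (q : W.K) = (Module.finBasis W.K (W.H X)).repr v i := fun i => hrat _
  choose q hq using h1
  have h2 : v = ∑ i, (q i : W.K) • Module.finBasis W.K (W.H X) i := by
    conv_lhs => rw [← (Module.finBasis W.K (W.H X)).sum_repr v]
    exact Finset.sum_congr rfl fun i _ => by rw [hq]
  rw [h2, map_sum, map_sum, map_sum, map_sum]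
  refine Finset.sum_congr rfl fun i _ => ?_
  rw [f_smul, map_smul, map_smul, f_smul, ← he', Basis.constr_basis]

/-- The span of the image of a set. -/
abbrev im (S : Set (W.H X)) : Submodule W'.K (W'.H X) := Submodule.span W'.K (C.f X '' S)

lemma f_mem {S : Set (W.H X)} {a : W.H X} (ha : a ∈ S) : C.f X a ∈ im C S :=
  Submodule.subset_span ⟨a, ha, rfl⟩

lemma f_proj (i : ℕ) (a : W.H X) :
    H914.proj (W'.isInternal X) i (C.f X a) = C.f X (H914.proj (W.isInternal X) i a) := by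
  refine gr_induction (W.isInternal X) (p := fun a =>
    H914.proj (W'.isInternal X) i (C.f X a) = C.f X (H914.proj (W.isInternal X) i a)) ?_ ?_ a
  · intro j a ha
    by_cases hij : j = i
    · subst hij
      rw [proj_same _ ha, proj_same _ (f_gr C ha)]
    · rw [proj_ne _ ha hij, proj_ne _ (f_gr C ha) hij, map_zero]
  · intro a b ha hb
    rw [map_add, map_add, map_add, map_add, ha, hb]

lemma gr_eq {i : ℕ} {x : W'.H X} (hx : x ∈ W'.gr X i) :
    x ∈ im C (W.gr X i : Set (W.H X)) := by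
  have key : ∀ x : W'.H X, H914.proj (W'.isInternal X) i x ∈ im C (W.gr X i : Set (W.H X)) := by
    intro x
    refine f_ind C (p := fun x => H914.proj (W'.isInternal X) i x ∈
      im C (W.gr X i : Set (W.H X))) ?_ ?_ ?_ x
    · rw [map_zero]; exact Submodule.zero_mem _
    · intro x y hx hy; rw [map_add]; exact Submodule.add_mem _ hx hy
    · intro r a
      rw [map_smul, f_proj]
      exact Submodule.smul_mem _ _ (f_mem C (proj_mem _ _ _))
  have h := key x
  rwa [proj_same _ hx] at h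

lemma im_map {φ' : W'.H X →ₗ[W'.K] W'.H Y} {φ : W.H X → W.H Y}
    (hφ : ∀ v, φ' (C.f X v) = C.f Y (φ v)) {S : Set (W.H X)} {S' : Set (W.H Y)}
    (h : ∀ v ∈ S, φ v ∈ S') {x : W'.H X} (hx : x ∈ im C S) : φ' x ∈ im C S' := by
  induction hx using Submodule.span_induction with
  | mem x hx =>
    obtain ⟨a, ha, rfl⟩ := hx
    rw [hφ]
    exact f_mem C (h a ha)
  | zero => rw [map_zero]; exact Submodule.zero_mem _
  | add x y _ _ hx hy => rw [map_add]; exact Submodule.add_mem _ hx hy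
  | smul r x _ hx => rw [map_smul]; exact Submodule.smul_mem _ _ hx

include hrat in
/-- The kernel of the extension of a linear map on a graded piece. -/
lemma ker_eq {i : ℕ} {φ : Module.End W.K (W.H X)} {φ' : Module.End W'.K (W'.H X)}
    (hφ : ∀ v, φ' (C.f X v) = C.f X (φ v)) {x : W'.H X} (hx : x ∈ W'.gr X i) (h0 : φ' x = 0) :
    x ∈ im C {v | v ∈ W.gr X i ∧ φ v = 0} := by
  obtain ⟨s, hs⟩ := (φ ∘ₗ (W.gr X i).subtype).rangeRestrict.exists_rightInverse_of_surjective
    (LinearMap.range_eq_top.2 (φ ∘ₗ (W.gr X i).subtype).surjective_rangeRestrict)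
  obtain ⟨p, hp⟩ := (LinearMap.range (φ ∘ₗ (W.gr X i).subtype)).subtype.exists_leftInverse_of_injective
    (LinearMap.ker_eq_bot.2 (LinearMap.range (φ ∘ₗ (W.gr X i).subtype)).injective_subtype)
  let t : Module.End W.K (W.H X) := (W.gr X i).subtype ∘ₗ s ∘ₗ p
  have ht : ∀ v, t v ∈ W.gr X i := fun v => (s (p v)).2
  have h1 : ∀ v ∈ W.gr X i, φ (t (φ v)) = φ v := by
    intro v hv
    have e0 : φ v = (φ ∘ₗ (W.gr X i).subtype) ⟨v, hv⟩ := rfl
    have e1 : p (φ v) = (φ ∘ₗ (W.gr X i).subtype).rangeRestrict ⟨v, hv⟩ :=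
      congrArg (fun g : LinearMap.range (φ ∘ₗ (W.gr X i).subtype) →ₗ[W.K] _ =>
        g ((φ ∘ₗ (W.gr X i).subtype).rangeRestrict ⟨v, hv⟩)) hp
    have e2 : (φ ∘ₗ (W.gr X i).subtype).rangeRestrict
        (s ((φ ∘ₗ (W.gr X i).subtype).rangeRestrict ⟨v, hv⟩)) =
        (φ ∘ₗ (W.gr X i).subtype).rangeRestrict ⟨v, hv⟩ :=
      congrArg (fun g : LinearMap.range (φ ∘ₗ (W.gr X i).subtype) →ₗ[W.K] _ =>
        g ((φ ∘ₗ (W.gr X i).subtype).rangeRestrict ⟨v, hv⟩)) hs
    change φ (s (p (φ v))) = φ v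
    rw [e1]
    exact congrArg Subtype.val e2
  obtain ⟨t', ht'⟩ := exists_ext C hrat t
  have h2 : (LinearMap.id - t' ∘ₗ φ' : Module.End W'.K (W'.H X)) x ∈
      im C {v | v ∈ W.gr X i ∧ φ v = 0} := by
    refine im_map C (φ' := LinearMap.id - t' ∘ₗ φ') (φ := fun v => v - t (φ v)) ?_
      (S := (W.gr X i : Set (W.H X))) ?_ (gr_eq C hx)
    · intro v
      rw [LinearMap.sub_apply, LinearMap.id_apply, LinearMap.comp_apply, hφ, ht', map_sub]
    · intro v hv
      refine ⟨Submodule.sub_mem _ hv (ht _), ?_⟩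
      rw [map_sub, h1 v hv, sub_self]
  rwa [LinearMap.sub_apply, LinearMap.id_apply, LinearMap.comp_apply, h0, map_zero, sub_zero] at h2

/-- The orientations. -/
lemma f_tr {a : W.H X} {q : ℚ} (h : W.tr X a = (q : W.K)) : W'.tr X (C.f X a) = (q : W'.K) :=
  (C.cmp X).tr a q h

include hrat in
/-- The comparison isomorphisms are compatible with push-forwards. -/
lemma f_push (g : X ⟶ Y) (a : W.H X) : C.f Y (W.push g a) = W'.push g (C.f X a) := by
  apply W'.tr_ext
  intro b
  refine f_ind C (p := fun b => W'.tr Y (C.f Y (W.push g a) * b) =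
    W'.tr Y (W'.push g (C.f X a) * b)) ?_ ?_ ?_ b
  · rw [mul_zero, mul_zero]
  · intro x y hx hy
    rw [mul_add, mul_add, map_add, map_add, hx, hy]
  · intro r b
    obtain ⟨q, hq⟩ := hrat (W.tr Y (W.push g a * b))
    rw [W'.tr_push, mul_smul_comm, map_smul, map_smul, mul_smul_comm, map_smul, ← map_mul,
      ← f_map, ← map_mul]
    congr 1
    rw [f_tr C hq.symm]
    rw [W.tr_push] at hq
    exact (f_tr C hq.symm).symm

end Pool.Agent.Q57.TM
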