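import Pool.Agent.Q57.TM.Ext
import Pool.Agent.Q55.Motivated
import Pool.Agent.Q55.Galois
import Pool.Agent.H914R2.KLef
import Pool.Agent.Q50.BL.Opr

/-!
# Comparison isomorphisms and Lefschetz operators
-/

open CategoryTheory AlgebraicGeometry

universe u w

namespace Pool.Agent.Q57.TM

open Module
open Pool.Agent.H914 Pool.Agent.H914.VarClass Pool.Agent.H914.VarClass.Obj
  Pool.Agent.H914.WeilCohomology
open Pool.Agent.Q57.DS (Cls)
open Pool.Agent.Q55 (GaloisAction IsTate tatePred Virtually)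
open Pool.Agent.Y133.Half
open Pool.Agent.Q50.BL (corrL_bijective)

variable {k : Type u} [Field k] {𝒱 : VarClass k} {ops : CycleOps 𝒱}
  {W W' : WeilCohomology.{u, 0} ops} (C : Compare W W') {X Y Z : 𝒱.Obj}
  (hrat : ∀ r : W.K, ∃ q : ℚ, (q : W.K) = r)

lemma f_pow {φ : Module.End W.K (W.H X)} {φ' : Module.End W'.K (W'.H X)}
    (hφ : ∀ v, φ' (C.f X v) = C.f X (φ v)) (m : ℕ) (v : W.H X) :
    (φ' ^ m) (C.f X v) = C.f X ((φ ^ m) v) := by
  induction m with
  | zero => simp
  | succ m ih => rw [pow_succ', pow_succ', Module.End.mul_apply, Module.End.mul_apply, ih, hφ]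

lemma f_mulLeft {D : X.Cycles} (hD : X.IsCyc 1 D) (v : W.H X) :
    LinearMap.mulLeft W'.K (W'.cl X D) (C.f X v) = C.f X (LinearMap.mulLeft W.K (W.cl X D) v) := by
  rw [LinearMap.mulLeft_apply, LinearMap.mulLeft_apply, map_mul, (C.cmp X).cl 1 D hD]

include hrat in
lemma f_corr (c : W.H (X.prod Y)) (v : W.H X) :
    W'.corr (C.f _ c) (C.f X v) = C.f Y (W.corr c v) := by
  change W'.push (snd X Y) (C.f _ c * W'.map (fst X Y) (C.f X v)) =
    C.f Y (W.push (snd X Y) (c * W.map (fst X Y) v))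
  rw [f_push C hrat, map_mul (C.f _), f_map]

include C hrat in
/-- Hard Lefschetz. -/
lemma f_hardLef {D : X.Cycles} (hD : X.IsCyc 1 D) (h : HardLefschetz W X D) :
    HardLefschetz W' X D := by
  intro i hi
  have hL := f_pow C (f_mulLeft C hD) (X.dim - i)
  constructor
  · intro a ha h0
    have h1 := ker_eq C hrat hL ha h0
    have h2 : im C {v | v ∈ W.gr X i ∧ (LinearMap.mulLeft W.K (W.cl X D) ^ (X.dim - i)) v = 0} ≤
        ⊥ := by
      rw [Submodule.span_le]
      rintro _ ⟨v, ⟨hv, hv0⟩, rfl⟩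
      rw [(h i hi).1 v hv hv0, map_zero]
      exact Submodule.zero_mem _
    exact (Submodule.mem_bot _).1 (h2 h1)
  · intro b hb
    have h1 := gr_eq C hb
    have h2 : im C (W.gr X (2 * X.dim - i) : Set (W.H X)) ≤
        (W'.gr X i).map (LinearMap.mulLeft W'.K (W'.cl X D) ^ (X.dim - i)) := by
      rw [Submodule.span_le]
      rintro _ ⟨v, hv, rfl⟩
      obtain ⟨a, ha, rfl⟩ := (h i hi).2 v hv
      exact ⟨C.f X a, f_gr C ha, hL a⟩
    exact h2 h1

include hrat in
/-- The Lambda operator. -/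
lemma f_isLam {D : X.Cycles} (hD : X.IsCyc 1 D) {Lam : Module.End W.K (W.H X)}
    {Lam' : Module.End W'.K (W'.H X)} (hLL : ∀ v, Lam' (C.f X v) = C.f X (Lam v))
    (h : IsLam (W.gr X) X.dim (LinearMap.mulLeft W.K (W.cl X D)) Lam) :
    IsLam (W'.gr X) X.dim (LinearMap.mulLeft W'.K (W'.cl X D)) Lam' := by
  intro i hi a ha h0
  have hL := f_pow C (f_mulLeft C hD)
  have h1 := ker_eq C hrat (hL (X.dim - i + 1)) ha h0
  clear h0 ha
  induction h1 using Submodule.span_induction with
  | mem x hx =>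
    obtain ⟨v, ⟨hv, hv0⟩, rfl⟩ := hx
    obtain ⟨h2, h3⟩ := h i hi v hv hv0
    refine ⟨by rw [hLL, h2, map_zero], fun j hj => ?_⟩
    rw [hL, hLL, h3 j hj, hL]
  | zero =>
    refine ⟨map_zero _, fun j _ => ?_⟩
    rw [map_zero, map_zero, map_zero]
  | add x y _ _ hx hy =>
    refine ⟨by rw [map_add, hx.1, hy.1, add_zero], fun j hj => ?_⟩
    rw [map_add, map_add, map_add, hx.2 j hj, hy.2 j hj]
  | smul r x _ hx =>
    refine ⟨by rw [map_smul, hx.1, smul_zero], fun j hj => ?_⟩
    rw [map_smul, map_smul, map_smul, hx.2 j hj]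

variable {Γ : Type w} [Group Γ]

include C hrat in
/-- The image of the class of a Lambda operator is a Tate class. -/
lemma lam_tate (G : GaloisAction W' Γ) {D : X.Cycles} (hD : X.IsCyc 1 D)
    (hHL : HardLefschetz W X D) {c : W.H (X.prod X)} (hc : c ∈ W.gr (X.prod X) (2 * (X.dim - 1)))
    (hLam : IsLam (W.gr X) X.dim (LinearMap.mulLeft W.K (W.cl X D)) (W.corr c)) :
    IsTate G (X.prod X) (X.dim - 1) (C.f _ c) := by
  have hLam' := f_isLam C hrat hD (Lam' := W'.corr (C.f _ c)) (f_corr C hrat c) hLam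
  have hHL' := f_hardLef C hrat hD hHL
  have hL : IsHom (W'.gr X) 2 (LinearMap.mulLeft W'.K (W'.cl X D)) := by
    simpa using rop_opAlg.hom (rop_mulLeft (W := W') hD)
  obtain ⟨Δ₁, hΔ₁, h1⟩ := G.map_act (fst X X)
  obtain ⟨Δ₂, hΔ₂, h2⟩ := Pool.Agent.Q55.push_act G (snd X X)
  obtain ⟨Δ₃, hΔ₃, h3⟩ := G.cl_act X 1 D hD
  have := (G.isGalois X).finiteIndex
  refine ⟨f_gr C hc, Δ₁ ⊓ Δ₂ ⊓ Δ₃ ⊓ (G.ρ X).dom, inferInstance, fun g hg hXX => ?_⟩
  obtain ⟨⟨⟨hg1, hg2⟩, hg3⟩, hgX⟩ := hg
  have h1' := h1 g hg1 hXX hgX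
  have h2' := h2 g hg2 hXX hgX
  have h3' := h3 g hg3 hgX
  set A := (G.ρ X).act g with hA
  set B := (G.ρ (X.prod X)).act g with hB
  set χ : W'.K := (G.χ g : W'.K) with hχ
  have hχ0 : χ ≠ 0 := Units.ne_zero _
  set c' := C.f (X.prod X) c with hc'
  set L := LinearMap.mulLeft W'.K (W'.cl X D) with hLdef
  set Λ := W'.corr c' with hΛ
  -- the action and the Lefschetz operator
  have hAL : ∀ a, A (L a) = χ • L (A a) := by
    intro a
    rw [hLdef, LinearMap.mulLeft_apply, LinearMap.mulLeft_apply, map_mul, h3', pow_one,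
      smul_mul_assoc]
  have hALj : ∀ j a, A ((L ^ j) a) = χ ^ j • (L ^ j) (A a) := by
    intro j
    induction j with
    | zero => intro a; simp
    | succ j ih =>
      intro a
      rw [pow_succ', Module.End.mul_apply, hAL, ih, map_smul, smul_smul, Module.End.mul_apply,
        pow_succ']
  -- the action and the Lambda operator
  have hAΛ : ∀ a, Λ (A a) = χ • A (Λ a) := by
    intro a
    refine lef_induction' (W'.isInternal X) hL W_hbd hHL'
      (p := fun a => Λ (A a) = χ • A (Λ a)) ?_ ?_ a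
    · intro a b ha hb
      rw [map_add, map_add, map_add, map_add, smul_add, ha, hb]
    · intro i hi a ha hp j
      have e1 : A a ∈ W'.gr X i := (G.isGalois X).gr_mem g hgX i a ha
      have e2 : (L ^ (X.dim - i + 1)) (A a) = 0 := by
        have e3 := hALj (X.dim - i + 1) a
        rw [hp, map_zero] at e3
        exact (smul_eq_zero.1 e3.symm).resolve_left (pow_ne_zero _ hχ0)
      obtain ⟨k1, k2⟩ := hLam' i hi a ha hp
      obtain ⟨k3, k4⟩ := hLam' i hi (A a) e1 e2
      rcases Nat.eq_zero_or_pos j with hj | hj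
      · subst hj
        rw [pow_zero, Module.End.one_apply, k3, k1, map_zero, smul_zero]
      · obtain ⟨m, rfl⟩ : ∃ m, j = m + 1 := ⟨j - 1, by omega⟩
        by_cases hm : m < X.dim - i
        · rw [hALj, map_smul, k4 m hm, k2 m hm, hALj, smul_smul, pow_succ']
        · have e4 : (L ^ (m + 1)) a = 0 := L_pow_gt hp (by omega)
          rw [e4, map_zero, map_zero, map_zero, smul_zero]
  -- the class
  have hn : ∀ a, χ ^ X.dim • A (Λ a) = χ ^ (X.dim - 1) • Λ (A a) := by
    intro a
    by_cases hn : X.dim = 0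
    · have e1 : Λ = 0 := by
        apply LinearMap.ext
        intro a
        refine lef_induction' (W'.isInternal X) hL W_hbd hHL'
          (p := fun a => Λ a = (0 : W'.H X →ₗ[W'.K] W'.H X) a) ?_ ?_ a
        · intro a b ha hb
          rw [map_add, map_add, ha, hb]
        · intro i hi a ha hp j
          rw [LinearMap.zero_apply]
          rcases Nat.eq_zero_or_pos j with hj | hj
          · subst hj
            exact (hLam' i hi a ha hp).1
          · rw [L_pow_gt hp (by omega), map_zero]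
      rw [e1, LinearMap.zero_apply, LinearMap.zero_apply, map_zero, smul_zero, smul_zero]
    · rw [hAΛ, smul_smul, ← pow_succ, show X.dim - 1 + 1 = X.dim by omega]
  have key : W'.corr (B c') = W'.corr (χ ^ (X.dim - 1) • c') := by
    apply LinearMap.ext
    intro b
    obtain ⟨a, rfl⟩ := A.surjective b
    have e1 : W'.corr (B c') (A a) = W'.push (snd X X) (B (c' * W'.map (fst X X) a)) := by
      change W'.push (snd X X) (B c' * W'.map (fst X X) (A a)) = _
      rw [h1', map_mul B]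
    have e2 := h2' (c' * W'.map (fst X X) a)
    have e3 : W'.push (snd X X) (c' * W'.map (fst X X) a) = Λ a := rfl
    rw [e3, ← e1, dim_prod, pow_add, ← smul_smul] at e2
    have e4 := smul_right_injective _ (pow_ne_zero X.dim hχ0) e2
    rw [← e4, hn a, corr_smul, LinearMap.smul_apply]
  exact (corrL_bijective W' X X).1 key

end Pool.Agent.Q57.TM

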