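import Pool.Agent.Q57.TM.Lef

/-!
# Extension of scalars for classes of cohomology classes
-/

open CategoryTheory AlgebraicGeometry

universe u w

namespace Pool.Agent.Q57.TM

open Module
open Pool.Agent.H914 Pool.Agent.H914.VarClass Pool.Agent.H914.VarClass.Obj
  Pool.Agent.H914.WeilCohomology
open Pool.Agent.Q57.DS (Cls)
open Pool.Agent.Q55 (GaloisAction IsTate tatePred Virtually)
open Pool.Agent.Y133.Half

variable {k : Type u} [Field k] {𝒱 : VarClass k} {ops : CycleOps 𝒱}
  {W W' : WeilCohomology.{u, 0} ops} (C : Compare W W') {X Y Z : 𝒱.Obj}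
  (hrat : ∀ r : W.K, ∃ q : ℚ, (q : W.K) = r)

lemma im_mul {S S' S'' : Set (W.H X)} (h : ∀ a ∈ S, ∀ b ∈ S', a * b ∈ S'') {x y : W'.H X}
    (hx : x ∈ im C S) (hy : y ∈ im C S') : x * y ∈ im C S'' := by
  induction hx using Submodule.span_induction with
  | mem x hx =>
    obtain ⟨a, ha, rfl⟩ := hx
    induction hy using Submodule.span_induction with
    | mem y hy =>
      obtain ⟨b, hb, rfl⟩ := hy
      rw [← map_mul]
      exact f_mem C (h a ha b hb)
    | zero => rw [mul_zero]; exact Submodule.zero_mem _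
    | add x y _ _ hx hy => rw [mul_add]; exact Submodule.add_mem _ hx hy
    | smul r x _ hx => rw [mul_smul_comm]; exact Submodule.smul_mem _ _ hx
  | zero => rw [zero_mul]; exact Submodule.zero_mem _
  | add x y _ _ hx hy => rw [add_mul]; exact Submodule.add_mem _ hx hy
  | smul r x _ hx => rw [smul_mul_assoc]; exact Submodule.smul_mem _ _ hx

include hrat in
/-- The linear combinations of the images of the classes with the property `Q.P`. -/
def extPred (Q : ClassPred W) : ClassPred W' where
  P := Img C Q.P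
  gr := by
    intro X j c hc
    have h1 : im C {x | Q.P X j x} ≤ W'.gr X (2 * j) := by
      rw [Submodule.span_le]
      rintro _ ⟨v, hv, rfl⟩
      exact f_gr C (Q.gr hv)
    exact h1 hc
  zero := Submodule.zero_mem _
  add := Submodule.add_mem _
  smul r _ h := Submodule.smul_mem _ r h
  cl := by
    intro X j z hz
    have h1 := f_mem C (S := {x | Q.P X j x}) (Q.cl hz)
    rw [(C.cmp X).cl j z hz] at h1
    exact h1
  mul := by
    intro X i j a b ha hb
    exact im_mul C (fun a ha b hb => Q.mul ha hb) ha hb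
  map := by
    intro X Y g j a ha
    exact im_map C (φ' := (W'.map g).toLinearMap) (φ := W.map g) (fun v => (f_map C g v).symm)
      (fun v hv => Q.map g hv) ha
  push := by
    intro X Y g j l hl a ha
    exact im_map C (φ' := W'.push g) (φ := W.push g) (fun v => (f_push C hrat g v).symm)
      (fun v hv => Q.push g hl hv) ha

variable (Q : ClassPred W)

lemma ext_sp (Z : 𝒱.Obj) : (extPred C hrat Q).sys.C Z = im C (Q.sys.C Z : Set (W.H Z)) := by
  apply le_antisymm
  · refine Submodule.span_le.2 ?_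
    rintro c ⟨j, hc⟩
    exact Submodule.span_mono (Set.image_mono fun x hx => ClassPred.sp_of (Q := Q) hx) hc
  · rw [Submodule.span_le]
    rintro _ ⟨v, hv, rfl⟩
    refine ClassPred.sp_ind (Q := Q)
      (q := fun v => C.f Z v ∈ (extPred C hrat Q).sys.C Z) ?_ ?_ ?_ hv
    · intro j x hx
      exact ClassPred.sp_of (Q := extPred C hrat Q) (f_mem C (S := {x | Q.P Z j x}) hx)
    · rw [map_zero]; exact Submodule.zero_mem _
    · intro a b ha hb
      rw [map_add]; exact Submodule.add_mem _ ha hb

/-- A basis of the space of the classes. -/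
lemma exists_ext_basis (Z : 𝒱.Obj) : ∃ b : Basis (Fin (finrank W.K (Q.sys.C Z))) W'.K
    ((extPred C hrat Q).sys.C Z), ∀ i, (b i : W'.H Z) =
      C.f Z (Module.finBasis W.K (Q.sys.C Z) i : W.H Z) := by
  let e := Module.finBasis W.K (Q.sys.C Z)
  have h1 : LinearIndependent W.K fun i => (e i : W.H Z) :=
    e.linearIndependent.map' (Q.sys.C Z).subtype (Submodule.ker_subtype _)
  have h2 := (C.cmp Z).indep _ _ h1
  have h3 : ∀ v ∈ Q.sys.C Z, C.f Z v ∈ Submodule.span W'.K (Set.range fun i => C.f Z (e i)) := by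
    intro v hv
    have h4 : v = ∑ i, e.repr ⟨v, hv⟩ i • (e i : W.H Z) := by
      have h5 := congrArg Subtype.val (e.sum_repr ⟨v, hv⟩)
      rw [Submodule.coe_sum] at h5
      exact h5.symm
    rw [h4, map_sum]
    refine Submodule.sum_mem _ fun i _ => ?_
    obtain ⟨q, hq⟩ := hrat (e.repr ⟨v, hv⟩ i)
    rw [← hq, f_smul]
    exact Submodule.smul_mem _ _ (Submodule.subset_span ⟨i, rfl⟩)
  have h6 : (extPred C hrat Q).sys.C Z = Submodule.span W'.K (Set.range fun i => C.f Z (e i)) := by
    rw [ext_sp]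
    apply le_antisymm
    · rw [Submodule.span_le]
      rintro _ ⟨v, hv, rfl⟩
      exact h3 v hv
    · rw [Submodule.span_le]
      rintro _ ⟨i, rfl⟩
      exact f_mem C (e i).2
  let b := (Basis.span h2).map (LinearEquiv.ofEq _ _ h6.symm)
  refine ⟨b, fun i => ?_⟩
  change ((Basis.span h2 i : _) : W'.H Z) = _
  rw [Basis.span_apply]

lemma ext_finrank (Z : 𝒱.Obj) : finrank W'.K ((extPred C hrat Q).sys.C Z) =
    finrank W.K (Q.sys.C Z) := by
  obtain ⟨b, -⟩ := exists_ext_basis C hrat Q Z
  rw [finrank_eq_card_basis b, Fintype.card_fin]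

lemma ext_nondeg (Z : 𝒱.Obj) (h : Q.sys.Nondeg Z) : (extPred C hrat Q).sys.Nondeg Z := by
  obtain ⟨b, hb⟩ := exists_ext_basis C hrat Q Z
  set e := Module.finBasis W.K (Q.sys.C Z) with he
  -- the pairing
  have hinj : Function.Injective (Q.sys.F Z 1) := by
    rw [← LinearMap.ker_eq_bot, LinearMap.ker_eq_bot']
    intro c hc
    apply Subtype.ext
    refine h c c.2 fun y hy => ?_
    exact congrArg (fun f : Q.sys.C Z →ₗ[W.K] W.K => f ⟨y, hy⟩) hc
  have hsurj : Function.Surjective (Q.sys.F Z 1) :=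
    (LinearMap.injective_iff_surjective_of_finrank_eq_finrank
      (Subspace.dual_finrank_eq).symm).1 hinj
  have hinj2 : Function.Injective (Q.sys.F Z 1).flip := by
    rw [← LinearMap.ker_eq_bot, LinearMap.ker_eq_bot']
    intro c hc
    refine (Module.forall_dual_apply_eq_zero_iff W.K c).1 fun g => ?_
    obtain ⟨x, rfl⟩ := hsurj g
    exact congrArg (fun f : Q.sys.C Z →ₗ[W.K] W.K => f x) hc
  have hsurj2 : Function.Surjective (Q.sys.F Z 1).flip :=
    (LinearMap.injective_iff_surjective_of_finrank_eq_finrank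
      (Subspace.dual_finrank_eq).symm).1 hinj2
  intro x hx hx0
  have h1 : x = ∑ j, b.repr ⟨x, hx⟩ j • C.f Z (e j : W.H Z) := by
    have h2 := congrArg Subtype.val (b.sum_repr ⟨x, hx⟩)
    rw [Submodule.coe_sum] at h2
    refine h2.symm.trans (Finset.sum_congr rfl fun j _ => ?_)
    rw [Submodule.coe_smul, hb]
  have h3 : b.repr ⟨x, hx⟩ = 0 := by
    ext i
    obtain ⟨y, hy⟩ := hsurj2 (e.coord i)
    have h4 : ∀ j, W'.tr Z (C.f Z (e j : W.H Z) * C.f Z (y : W.H Z)) =
        if j = i then 1 else 0 := by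
      intro j
      have h5 : W.tr Z ((e j : W.H Z) * (y : W.H Z)) = ((if j = i then 1 else 0 : ℚ) : W.K) := by
        have h6 : (Q.sys.F Z 1).flip y (e j) = e.coord i (e j) := by rw [hy]
        rw [Basis.coord_apply, Basis.repr_self, Finsupp.single_apply] at h6
        have h7 : (Q.sys.F Z 1).flip y (e j) = W.tr Z ((e j : W.H Z) * (y : W.H Z)) := rfl
        rw [← h7, h6]
        split_ifs <;> simp
      rw [← map_mul, f_tr C h5]
      split_ifs <;> simp
    have h8 := hx0 (C.f Z (y : W.H Z)) (by rw [ext_sp]; exact f_mem C y.2)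
    rw [h1, Finset.sum_mul, map_sum, Finset.sum_eq_single i] at h8
    · rw [smul_mul_assoc, map_smul, h4 i, if_pos rfl, smul_eq_mul, mul_one] at h8
      exact h8
    · intro j _ hj
      rw [smul_mul_assoc, map_smul, h4 j, if_neg hj, smul_zero]
    · intro hi
      exact absurd (Finset.mem_univ i) hi
  have h9 : (⟨x, hx⟩ : (extPred C hrat Q).sys.C Z) = 0 := (LinearEquiv.map_eq_zero_iff b.repr).1 h3
  exact congrArg Subtype.val h9

end Pool.Agent.Q57.TM
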